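import Pool.Agent.Y395.SP.Stm2

/-!
Project SP2, part PERM: matching keys of large value with keys of small working set number.
-/

set_option autoImplicit false

namespace Pool.Agent.Y431.SP.PERM

open Pool.Agent.H581R2.Splay Pool.Agent.TH49.Spl Pool.Agent.Y395.SP

/-- the set of the keys requested since the previous request of `a` -/
def tw (h : List ℕ) (a : ℕ) : Finset ℕ := (h.takeWhile fun y => decide (y ≠ a)).toFinset

theorem ws_eq (h : List ℕ) (a : ℕ) : ws h a = (tw h a).card := rfl

theorem tw_cons_self (h : List ℕ) (a : ℕ) : tw (a :: h) a = ∅ := by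
  simp [tw]

theorem tw_cons_ne {y a : ℕ} (h : List ℕ) (hy : y ≠ a) : tw (y :: h) a = insert y (tw h a) := by
  simp [tw, hy]

theorem tw_self (h : List ℕ) (a : ℕ) : a ∉ tw h a := by
  intro ha
  unfold tw at ha
  rw [List.mem_toFinset] at ha
  have := List.mem_takeWhile_imp ha
  simp at this

theorem tw_sub (h : List ℕ) (a : ℕ) : ∀ y ∈ tw h a, y ∈ h := by
  intro y hy
  unfold tw at hy
  rw [List.mem_toFinset] at hy
  exact (List.takeWhile_sublist _).subset hy

theorem tw_mono (h : List ℕ) (y z : ℕ) : z ∈ tw h y → tw h z ⊆ tw h y := by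
  induction h with
  | nil =>
    intro hz
    simp [tw] at hz
  | cons a h ih =>
    intro hz
    by_cases hay : a = y
    · subst hay
      rw [tw_cons_self] at hz
      simp at hz
    · rw [tw_cons_ne h hay] at hz ⊢
      by_cases haz : a = z
      · subst haz
        rw [tw_cons_self]
        exact Finset.empty_subset _
      · rw [tw_cons_ne h haz]
        rcases Finset.mem_insert.1 hz with h1 | h1
        · exact absurd h1.symm haz
        · exact Finset.insert_subset_insert _ (ih h1)

theorem ws_lt {h : List ℕ} {y z : ℕ} (hz : z ∈ tw h y) : ws h z < ws h y := by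
  rw [ws_eq, ws_eq]
  apply Finset.card_lt_card
  refine Finset.ssubset_iff_subset_ne.2 ⟨tw_mono h y z hz, fun he => ?_⟩
  rw [← he] at hz
  exact tw_self h z hz

theorem match_core (K : Finset ℕ) (v : ℕ → ℝ) (M : ℝ) (u : ℕ → ℕ)
    (hu : ∀ y ∈ K, u y ≤ (K.filter fun z => u z < u y).card)
    (hv : ∀ x ∈ K, 0 < v x) (hM : ∑ x ∈ K, v x ≤ M) :
    ∃ σ : Equiv.Perm ℕ, (∀ x, x ∈ K ↔ σ x ∈ K) ∧ ∀ x ∈ K, ((u (σ x) : ℝ) + 1) * v x ≤ M := by
  classical
  let e0 : Fin K.card ≃ K := K.equivFin.symm
  let e : Fin K.card ≃ K := (Tuple.sort (fun i => -v (e0 i))).trans e0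
  let f : Fin K.card ≃ K := (Tuple.sort (fun i => u (e0 i))).trans e0
  have he : ∀ i j, i ≤ j → v (e j) ≤ v (e i) := by
    intro i j hij
    have h1 := Tuple.monotone_sort (fun i => -v (e0 i)) hij
    simp only [Function.comp] at h1
    show v (e0 (Tuple.sort (fun i => -v (e0 i)) j)) ≤ v (e0 (Tuple.sort (fun i => -v (e0 i)) i))
    linarith
  have hf : ∀ i j, i ≤ j → u (f i) ≤ u (f j) := by
    intro i j hij
    exact Tuple.monotone_sort (fun i => u (e0 i)) hij
  have hfi : ∀ i : Fin K.card, u (f i) ≤ (i : ℕ) := by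
    intro i
    refine (hu (f i) (f i).2).trans ?_
    have h1 : (K.filter fun z => u z < u (f i)) ⊆
        (Finset.Iio i).image (fun j => ((f j : K) : ℕ)) := by
      intro z hz
      rw [Finset.mem_filter] at hz
      rw [Finset.mem_image]
      refine ⟨f.symm ⟨z, hz.1⟩, ?_, ?_⟩
      · rw [Finset.mem_Iio]
        by_contra hcon
        have h2 := hf i (f.symm ⟨z, hz.1⟩) (not_lt.1 hcon)
        rw [Equiv.apply_symm_apply] at h2
        have h3 : u z < u (f i) := hz.2
        exact absurd h2 (not_le.2 h3)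
      · rw [Equiv.apply_symm_apply]
    refine (Finset.card_le_card h1).trans (Finset.card_image_le.trans ?_)
    rw [Fin.card_Iio]
  have hei : ∀ i : Fin K.card, ((i : ℕ) + 1 : ℝ) * v (e i) ≤ M := by
    intro i
    have h1 : ∑ j : Fin K.card, v (e j) = ∑ x ∈ K, v x := by
      rw [Equiv.sum_comp e (fun x : K => v x), Finset.sum_coe_sort K v]
    have h2 : ∑ j ∈ Finset.Iic i, v (e j) ≤ ∑ j : Fin K.card, v (e j) :=
      Finset.sum_le_sum_of_subset_of_nonneg (Finset.subset_univ _)
        (fun j _ _ => (hv (e j) (e j).2).le)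
    have h3 : ∑ _j ∈ Finset.Iic i, v (e i) ≤ ∑ j ∈ Finset.Iic i, v (e j) :=
      Finset.sum_le_sum fun j hj => he j i (Finset.mem_Iic.1 hj)
    rw [Finset.sum_const, Fin.card_Iic, nsmul_eq_mul] at h3
    push_cast at h3
    linarith
  refine ⟨Equiv.Perm.ofSubtype (e.symm.trans f : Equiv.Perm K), fun x => ?_, fun x hx => ?_⟩
  · constructor
    · intro hx
      have h1 := Equiv.Perm.ofSubtype_apply_coe (e.symm.trans f : Equiv.Perm K) ⟨x, hx⟩
      simp only at h1
      rw [h1]
      exact Subtype.property _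
    · intro hx
      by_contra hcon
      rw [Equiv.Perm.ofSubtype_apply_of_not_mem _ hcon] at hx
      exact hcon hx
  · have h1 := Equiv.Perm.ofSubtype_apply_coe (e.symm.trans f : Equiv.Perm K) ⟨x, hx⟩
    simp only at h1
    rw [h1]
    have h2 := hfi (e.symm ⟨x, hx⟩)
    have h3 := hei (e.symm ⟨x, hx⟩)
    rw [Equiv.apply_symm_apply] at h3
    have h4 : (u ((e.symm.trans f : Equiv.Perm K) ⟨x, hx⟩) : ℝ) ≤
        ((e.symm ⟨x, hx⟩ : Fin K.card) : ℕ) := by
      exact_mod_cast h2
    refine le_trans (mul_le_mul_of_nonneg_right ?_ (hv x hx).le) h3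
    linarith

theorem main : SPerm := by
  intro K v M g hg hv hM
  refine match_core K v M (ws g) (fun y _ => ?_) hv hM
  rw [ws_eq g y]
  apply Finset.card_le_card
  intro z hz
  rw [Finset.mem_filter]
  refine ⟨hg z (tw_sub g y z hz), ?_⟩
  have := ws_lt hz
  rwa [ws_eq g y] at this

end Pool.Agent.Y431.SP.PERM
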